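import Pool.Agent.Q99.FS.Omega

/-!
# Equivalence of the measures of weak non-compactness in Lipschitz-free spaces

For every uniformly separated pointed metric space, De Blasi's measure and the measure `wk` are equivalent in
the Lipschitz-free space, with a constant which does not depend on the metric space.
-/

set_option autoImplicit false

namespace Pool.Agent.Results.MP_6e86bf_an.MeasuresEquivalent

open Q99.FS

universe v

/-- For every uniformly separated metric space `M` (and real or complex scalars) and every bounded set `A` in the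
Lipschitz-free space of `M`, `ω(A) ≤ 1568 wk(A)`. -/
theorem result (𝕜 : Type) [RCLike 𝕜] (M : Type v) [MetricSpace M] (o : M)
    (hM : ∃ θ : ℝ, 0 < θ ∧ ∀ x y : M, x ≠ y → θ ≤ dist x y)
    (A : Set (FreeSp 𝕜 M o)) (hA : Bornology.IsBounded A) :
    omega 𝕜 A ≤ 1568 * wk 𝕜 A := by
  obtain ⟨θ, hθ, hs⟩ := hM
  obtain ⟨C, hC⟩ := isBounded_iff_forall_norm_le.1 hA
  have h1 := omega_le (by norm_num : (0 : ℝ) < 392) (propS_free (𝕜 := 𝕜) (o := o) hθ hs) hC
  have h2 : ENNReal.ofReal (4 * 392) = 1568 := by norm_num
  rw [h2] at h1
  exact h1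

end Pool.Agent.Results.MP_6e86bf_an.MeasuresEquivalent
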